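import Pool.Agent.Helper89.HY.St

/-!
# HY (MP_e188f1_nt), module POS: positivity
-/

set_option autoImplicit false

noncomputable section

namespace Pool.Agent.Helper47.HY

open Finset
open Pool.Agent.Helper89.HY

private theorem ad_zero (p : ℕ) [Fact p.Prime] : ad p 0 = 1 := by
  unfold ad
  exact AddChar.map_zero_eq_one _

private theorem ad_sum (p : ℕ) [Fact p.Prime] (f : Fin 6 → ZMod p) :
    ad p (∑ i, f i) = ∏ i, ad p (f i) := by
  unfold ad
  rw [Fin.sum_univ_six, Fin.prod_univ_six]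
  simp only [AddChar.map_add_eq_mul]

private theorem expand (p : ℕ) [Fact p.Prime] (V : Finset (Fin 6 → ZMod p))
    (w v : Fin 6 → ZMod p → ℝ)
    (hw : ∀ i x, (w i x : ℂ) = ∑ m : ZMod p, (v i m : ℂ) * ad p (m * x)) :
    ((∑ x ∈ V, ∏ i, w i (x i) : ℝ) : ℂ) =
      ∑ m : Fin 6 → ZMod p, ((∏ i, v i (m i) : ℝ) : ℂ) * ∑ x ∈ V, ad p (∑ i, m i * x i) := by
  push_cast
  have h1 : ∀ x ∈ V, ∏ i, (w i (x i) : ℂ) =
      ∑ m : Fin 6 → ZMod p, (∏ i, (v i (m i) : ℂ)) * ad p (∑ i, m i * x i) := by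
    intro x _
    have h2 : ∏ i, (w i (x i) : ℂ) = ∏ i, ∑ m : ZMod p, (v i m : ℂ) * ad p (m * x i) :=
      Finset.prod_congr rfl fun i _ => hw i (x i)
    rw [h2, Finset.prod_univ_sum, Fintype.piFinset_univ]
    refine Finset.sum_congr rfl fun m _ => ?_
    rw [Finset.prod_mul_distrib, ad_sum]
  rw [Finset.sum_congr rfl h1, Finset.sum_comm]
  refine Finset.sum_congr rfl fun m _ => ?_
  rw [Finset.mul_sum]

theorem hPOS : StPOS := by
  classical
  intro p _ V w v B hB hv hw hVm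
  have e1 := expand p V w v hw
  have hc : ∀ m : Fin 6 → ZMod p, 0 ≤ ∏ i, v i (m i) := fun m =>
    Finset.prod_nonneg fun i _ => hv i (m i)
  have hw0 : ∀ i, w i 0 = ∑ m : ZMod p, v i m := by
    intro i
    have h := hw i 0
    have h2 : (w i 0 : ℂ) = ((∑ m : ZMod p, v i m : ℝ) : ℂ) := by
      rw [h]
      push_cast
      refine Finset.sum_congr rfl fun m _ => ?_
      rw [mul_zero, ad_zero, mul_one]
    exact_mod_cast h2
  have hprod : ∏ i, w i 0 = ∑ m : Fin 6 → ZMod p, ∏ i, v i (m i) := by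
    rw [Finset.prod_congr rfl fun i _ => hw0 i, Finset.prod_univ_sum, Fintype.piFinset_univ]
  have hT0 : ∑ x ∈ V, ad p (∑ i, (0 : Fin 6 → ZMod p) i * x i) = (V.card : ℂ) := by
    have : ∀ x ∈ V, ad p (∑ i, (0 : Fin 6 → ZMod p) i * x i) = 1 := by
      intro x _
      have : ∑ i, (0 : Fin 6 → ZMod p) i * x i = 0 :=
        Finset.sum_eq_zero fun i _ => by rw [Pi.zero_apply, zero_mul]
      rw [this, ad_zero]
    rw [Finset.sum_congr rfl this, Finset.sum_const, nsmul_eq_mul, mul_one]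
  have e2 : ∑ x ∈ V, ∏ i, w i (x i) = (∏ i, v i 0) * V.card +
      (∑ m ∈ univ.erase (0 : Fin 6 → ZMod p), ((∏ i, v i (m i) : ℝ) : ℂ) *
        ∑ x ∈ V, ad p (∑ i, m i * x i)).re := by
    have e3 := congrArg Complex.re e1
    rw [Complex.ofReal_re] at e3
    rw [e3, ← Finset.add_sum_erase _ _ (Finset.mem_univ (0 : Fin 6 → ZMod p)), Complex.add_re, hT0]
    congr 1
    rw [← Complex.ofReal_natCast, ← Complex.ofReal_mul, Complex.ofReal_re]
    rfl
  rw [e2]
  apply add_le_add le_rfl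
  refine (Complex.re_le_norm _).trans ((norm_sum_le _ _).trans ?_)
  rw [hprod, Finset.mul_sum]
  calc ∑ m ∈ univ.erase (0 : Fin 6 → ZMod p), ‖((∏ i, v i (m i) : ℝ) : ℂ) *
        ∑ x ∈ V, ad p (∑ i, m i * x i)‖
      ≤ ∑ m ∈ univ.erase (0 : Fin 6 → ZMod p), B * ∏ i, v i (m i) := by
        refine Finset.sum_le_sum fun m hm => ?_
        rw [norm_mul, Complex.norm_real, Real.norm_of_nonneg (hc m), mul_comm B]
        exact mul_le_mul_of_nonneg_left (hVm m (Finset.ne_of_mem_erase hm)) (hc m)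
    _ ≤ ∑ m : Fin 6 → ZMod p, B * ∏ i, v i (m i) :=
        Finset.sum_le_sum_of_subset_of_nonneg (Finset.erase_subset _ _)
          (fun m _ _ => mul_nonneg hB (hc m))

end Pool.Agent.Helper47.HY
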